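import Pool.Agent.Z45.OG.Embed

/-!
# Few free places in every initial segment
-/

namespace Pool.Agent.Z45.UO

open Pool.Agent.NPC Pool.Agent.H620R2.Gauge MeasureTheory Pool.Agent.Z45.OG

/-- the number has more binary digits than its predecessor -/
def lev (ℓ : ℕ) : Bool := decide ((ℓ - 1).bits.length < ℓ.bits.length)

/-- the free place number `r` for the length `ℓ` -/
def fr (ℓ r : ℕ) : List Bool := List.replicate ℓ false ++ List.replicate r true

/-- the free places -/
def Free (c : ℕ) : Set (List Bool) := {y | ∃ ℓ r, lev ℓ = true ∧ r < c ∧ y = fr ℓ r}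

/-- the powers of two up to `B` -/
def levs (B : ℕ) : List ℕ := (List.range (B + 1)).filter lev

/-- the free places for the lengths up to `B` -/
def FL (c B : ℕ) : List (List Bool) := (levs B).flatMap (fun ℓ => (List.range c).map (fr ℓ))

theorem length_fr (ℓ r : ℕ) : (fr ℓ r).length = ℓ + r := by simp [fr]

theorem fr_inj {ℓ r ℓ' r' : ℕ} (h : fr ℓ r = fr ℓ' r') : ℓ = ℓ' ∧ r = r' := by
  have h1 := congrArg (List.count false) h
  have h2 := congrArg (List.count true) h
  simp only [fr, List.count_append, List.count_replicate] at h1 h2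
  constructor
  · simpa using h1
  · simpa using h2

theorem size_succ_le (n : ℕ) : (n + 1).size ≤ n.size + 1 := by
  rw [Nat.size_le, pow_succ]
  have := Nat.lt_size_self n
  omega

theorem length_levs (B : ℕ) : (levs B).length = B.size := by
  induction B with
  | zero => simp [levs, lev]
  | succ B ih =>
    have h1 : levs (B + 1) = levs B ++ [B + 1].filter lev := by
      rw [levs, List.range_succ, List.filter_append]
      rfl
    have h2 := size_succ_le B
    have h3 : B.size ≤ (B + 1).size := Nat.size_le_size (Nat.le_succ B)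
    rw [h1, List.length_append, ih]
    have h4 : lev (B + 1) = decide (B.size < (B + 1).size) := by
      unfold lev
      rw [Nat.add_sub_cancel, Nat.size_eq_bits_len, Nat.size_eq_bits_len]
    by_cases h5 : B.size < (B + 1).size
    · rw [List.filter_cons_of_pos (by rw [h4]; exact decide_eq_true h5)]
      simp
      omega
    · rw [List.filter_cons_of_neg (by rw [h4]; simpa using h5)]
      simp
      omega

theorem length_FL (c B : ℕ) : (FL c B).length = c * B.size := by
  rw [FL, List.length_flatMap]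
  simp only [List.length_map, List.length_range]
  rw [List.map_const', List.sum_replicate, length_levs, smul_eq_mul, mul_comm]

theorem mem_levs {B ℓ : ℕ} : ℓ ∈ levs B ↔ ℓ ≤ B ∧ lev ℓ = true := by
  rw [levs, List.mem_filter, List.mem_range]
  constructor
  · rintro ⟨h1, h2⟩; exact ⟨by omega, h2⟩
  · rintro ⟨h1, h2⟩; exact ⟨by omega, h2⟩

theorem mem_FL {c B : ℕ} {y : List Bool} :
    y ∈ FL c B ↔ ∃ ℓ r, ℓ ≤ B ∧ lev ℓ = true ∧ r < c ∧ y = fr ℓ r := by
  rw [FL, List.mem_flatMap]
  constructor
  · rintro ⟨ℓ, h1, h2⟩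
    obtain ⟨r, h3, h4⟩ := List.mem_map.1 h2
    rw [mem_levs] at h1
    exact ⟨ℓ, r, h1.1, h1.2, List.mem_range.1 h3, h4.symm⟩
  · rintro ⟨ℓ, r, h1, h2, h3, h4⟩
    exact ⟨ℓ, mem_levs.2 ⟨h1, h2⟩, List.mem_map.2 ⟨r, List.mem_range.2 h3, h4.symm⟩⟩

theorem free_of_mem_FL {c B : ℕ} {y : List Bool} (h : y ∈ FL c B) : y ∈ Free c := by
  obtain ⟨ℓ, r, _, h2, h3, h4⟩ := mem_FL.1 h
  exact ⟨ℓ, r, h2, h3, h4⟩

theorem mem_FL_of_free {c B : ℕ} {y : List Bool} (h : y ∈ Free c) (hB : y.length ≤ B) :
    y ∈ FL c B := by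
  obtain ⟨ℓ, r, h2, h3, rfl⟩ := h
  rw [length_fr] at hB
  exact mem_FL.2 ⟨ℓ, r, by omega, h2, h3, rfl⟩

theorem nodup_FL (c B : ℕ) : (FL c B).Nodup := by
  rw [FL, List.nodup_flatMap]
  refine ⟨fun ℓ _ => ?_, ?_⟩
  · exact List.nodup_range.map fun r r' h => (fr_inj h).2
  · have h1 : (levs B).Nodup := List.nodup_range.filter _
    refine h1.imp fun {ℓ ℓ'} hne => ?_
    rw [Function.onFun, List.disjoint_left]
    intro y hy hy'
    obtain ⟨r, _, rfl⟩ := List.mem_map.1 hy
    obtain ⟨r', _, h2⟩ := List.mem_map.1 hy'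
    exact hne (fr_inj h2).1.symm

open Classical in
theorem card_bound (c N : ℕ) :
    (((Finset.range N).filter (fun i => str i ∈ (Free c)ᶜ)).card : ℝ) ≤
      (N - c * Real.logb 2 (Real.logb 2 N)) + c * Real.logb 2 (c + 1) := by
  have hC : (0 : ℝ) ≤ c * Real.logb 2 (c + 1) := by
    refine mul_nonneg (Nat.cast_nonneg c) (Real.logb_nonneg (by norm_num) ?_)
    have : (0 : ℝ) ≤ c := Nat.cast_nonneg c
    linarith
  have htriv : (((Finset.range N).filter (fun i => str i ∈ (Free c)ᶜ)).card : ℝ) ≤ N := by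
    have h := Finset.card_filter_le (Finset.range N) (fun i => str i ∈ (Free c)ᶜ)
    rw [Finset.card_range] at h
    exact_mod_cast h
  rcases Nat.lt_or_ge N 2 with hN | hN
  · have h0 : Real.logb 2 (Real.logb 2 N) = 0 := by
      rcases (by omega : N = 0 ∨ N = 1) with rfl | rfl <;> simp
    rw [h0]
    linarith
  set m := Nat.log 2 N - c with hm
  set u := Real.logb 2 N with hu
  have hN2 : (2 : ℝ) ≤ N := by exact_mod_cast hN
  have hu1 : 1 ≤ u := by
    rw [hu, Real.le_logb_iff_rpow_le (by norm_num) (by linarith), Real.rpow_one]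
    exact hN2
  -- the places of the first strings
  have h1 : (FL c m).length ≤ ((Finset.range N).filter (fun i => str i ∈ Free c)).card := by
    have h2 : (FL c m).toFinset.image idx ⊆
        (Finset.range N).filter (fun i => str i ∈ Free c) := by
      intro i hi
      obtain ⟨y, hy, rfl⟩ := Finset.mem_image.1 hi
      rw [List.mem_toFinset] at hy
      rw [Finset.mem_filter, Finset.mem_range, str_idx]
      refine ⟨?_, free_of_mem_FL hy⟩
      obtain ⟨ℓ, r, hℓ, hl, hr, rfl⟩ := mem_FL.1 hy
      have h3 := idx_lt (fr ℓ r)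
      rw [length_fr] at h3
      have h4 : ℓ ≠ 0 := by
        rintro rfl
        simp [lev] at hl
      have h5 : ℓ + r + 1 ≤ Nat.log 2 N := by omega
      have h6 : 2 ^ (ℓ + r + 1) ≤ 2 ^ Nat.log 2 N := Nat.pow_le_pow_right (by norm_num) h5
      have h7 : 2 ^ Nat.log 2 N ≤ N := Nat.pow_log_le_self 2 (by omega)
      omega
    have h3 := Finset.card_le_card h2
    rw [Finset.card_image_of_injective _ (Function.LeftInverse.injective str_idx),
      List.toFinset_card_of_nodup (nodup_FL c m)] at h3
    exact h3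
  rw [length_FL] at h1
  have h2 : ((Finset.range N).filter (fun i => str i ∈ Free c)).card +
      ((Finset.range N).filter (fun i => str i ∈ (Free c)ᶜ)).card = N := by
    have e := Finset.card_filter_add_card_filter_not (s := Finset.range N)
      (fun i => str i ∈ Free c)
    rw [Finset.card_range] at e
    exact e
  have h3 : ((c : ℝ)) * m.size + (((Finset.range N).filter
      (fun i => str i ∈ (Free c)ᶜ)).card : ℝ) ≤ N := by
    have : c * m.size + ((Finset.range N).filter (fun i => str i ∈ (Free c)ᶜ)).card ≤ N := by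
      omega
    exact_mod_cast this
  have hc1 : (0 : ℝ) < (c : ℝ) + 1 := by positivity
  have h4 : u / (c + 1) ≤ (m : ℝ) + 1 := by
    have h5 : u < Nat.log 2 N + 1 := by
      have := Real.logb_lt_iff_lt_rpow (b := 2) (x := N) (y := (Nat.log 2 N : ℝ) + 1)
        (by norm_num) (by linarith)
      rw [hu, this]
      have h6 : N < 2 ^ (Nat.log 2 N + 1) := Nat.lt_pow_succ_log_self (by norm_num) N
      have h7 : ((2 : ℝ)) ^ ((Nat.log 2 N : ℝ) + 1) = ((2 ^ (Nat.log 2 N + 1) : ℕ) : ℝ) := by
        rw [show ((Nat.log 2 N : ℝ) + 1) = ((Nat.log 2 N + 1 : ℕ) : ℝ) by push_cast; ring,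
          Real.rpow_natCast]
        push_cast
        ring
      rw [h7]
      exact_mod_cast h6
    have h6 : (Nat.log 2 N : ℝ) ≤ m + c := by
      have : Nat.log 2 N ≤ m + c := by omega
      exact_mod_cast this
    rw [div_le_iff₀ hc1]
    have hm0 : (0 : ℝ) ≤ m := Nat.cast_nonneg m
    have hc0 : (0 : ℝ) ≤ c := Nat.cast_nonneg c
    nlinarith [mul_nonneg hm0 hc0]
  have h5 : Real.logb 2 u - Real.logb 2 (c + 1) ≤ m.size := by
    rw [← Real.logb_div (by linarith) (by linarith)]
    rw [Real.logb_le_iff_le_rpow (by norm_num) (by positivity), Real.rpow_natCast]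
    have h6 : m < 2 ^ m.size := Nat.lt_size_self m
    have h7 : ((m : ℝ)) + 1 ≤ 2 ^ m.size := by exact_mod_cast h6
    linarith
  have h6 := mul_le_mul_of_nonneg_left h5 (Nat.cast_nonneg (α := ℝ) c)
  linarith

/-- the oracle that is empty outside the free places -/
noncomputable def cut (c : ℕ) (B : Oracle) : Oracle := by
  classical
  exact fun y => if y ∈ Free c then B y else false

theorem cut_free {c : ℕ} {y : List Bool} (h : y ∈ Free c) (B : Oracle) : cut c B y = B y := by
  simp only [cut, h, if_true]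

theorem cut_not {c : ℕ} {y : List Bool} (h : y ∉ Free c) (B : Oracle) : cut c B y = false := by
  simp only [cut, h, if_false]

theorem cut_null {X : Set Oracle} {c : ℝ} {c' : ℕ} (hc : c ≤ c')
    (h : Null (fun N => N - c * Real.logb 2 (Real.logb 2 N)) X) :
    ranO {B | cut c' B ∈ X} = 0 := by
  classical
  by_contra hne
  refine not_null_of (fun N => N - c * Real.logb 2 (Real.logb 2 N)) {B | cut c' B ∈ X}
    (pos_iff_ne_zero.2 hne) (cut c') (Free c')ᶜ (fun B y hy => ?_) (c' * Real.logb 2 (c' + 1))
    (fun N => ?_) X (fun B hB => hB) h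
  · exact cut_free (not_not.1 hy) B
  · have h0 := card_bound c' N
    refine le_trans (le_of_eq ?_) (h0.trans ?_)
    · congr 2
      exact Finset.filter_congr_decidable _ _ _
    have h1 : 0 ≤ Real.logb 2 (Real.logb 2 N) := by
      rcases Nat.lt_or_ge N 2 with hN | hN
      · rcases (by omega : N = 0 ∨ N = 1) with rfl | rfl <;> simp
      · refine Real.logb_nonneg (by norm_num) ?_
        have hN2 : (2 : ℝ) ≤ N := by exact_mod_cast hN
        rw [Real.le_logb_iff_rpow_le (by norm_num) (by linarith), Real.rpow_one]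
        exact hN2
    have h2 := mul_le_mul_of_nonneg_right hc h1
    linarith

end Pool.Agent.Z45.UO
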