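import Pool.Agent.Z45.UO.Gain
import Pool.Agent.Z45.UO.Free

/-!
# A deterministic algorithm from few useless oracles
-/

namespace Pool.Agent.Z45.UO

open Pool.Agent.NPC Pool.Agent.H620R2.Gauge MeasureTheory Pool.Agent.Z45.OG

/-- the missing free places up to length `B` -/
def mis (c : ℕ) (K : List (List Bool)) (B : ℕ) : List (List Bool) :=
  (FL c B).filter (fun y => !decide (y ∈ K))

/-- the majority of the extensions of the table accepts -/
def dec (M : Alg) (c : ℕ) (τ : Tab) (s : Polynomial ℕ) (x : List Bool) : Bool :=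
  decide ((ext (mis c (τ.map Prod.fst) (s.eval x.length)) τ).length <
    2 * ((ext (mis c (τ.map Prod.fst) (s.eval x.length)) τ).filter (fun σ =>
      decide (lz M x (M.p.eval x.length) [] σ [] = some [true]))).length)

theorem two_pow_size_le (B : ℕ) : 2 ^ B.size ≤ 2 * B + 1 := by
  rcases Nat.eq_zero_or_pos B with rfl | hB
  · simp
  · have h1 : 0 < B.size := Nat.size_pos.2 hB
    have h2 : 2 ^ (B.size - 1) ≤ B := Nat.lt_size.1 (by omega)
    have h3 : B.size = (B.size - 1) + 1 := by omega
    rw [h3, pow_succ]
    omega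

theorem sz_mem_ext {Q : List (List Bool)} {τ σ : Tab} {S : ℕ} (hS : ∀ q ∈ Q, sz q ≤ S)
    (h : σ ∈ ext Q τ) : sz σ ≤ sz τ + Q.length * (S + 6) := by
  induction Q generalizing σ with
  | nil =>
    have : σ = τ := by simpa [ext] using h
    rw [this]; omega
  | cons q Q ih =>
    have ih := fun {σ : Tab} => ih (σ := σ) (fun q' hq' => hS q' (List.mem_cons_of_mem _ hq'))
    have hq := hS q List.mem_cons_self
    rw [ext_cons, dbl, List.mem_append, List.mem_map, List.mem_map] at h
    have key : ∀ (ρ : Tab) (b : Bool), ρ ∈ ext Q τ →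
        sz ((q, b) :: ρ) ≤ sz τ + (q :: Q).length * (S + 6) := by
      intro ρ b hρ
      have h1 := ih hρ
      have h2 := sz_bool_le b
      rw [sz_list_cons, sz_pair, List.length_cons]
      have e : (Q.length + 1) * (S + 6) = Q.length * (S + 6) + (S + 6) := by ring
      omega
    rcases h with ⟨ρ, hρ, rfl⟩ | ⟨ρ, hρ, rfl⟩
    · exact key ρ false hρ
    · exact key ρ true hρ

theorem poly_FL {α : Type} [TEnc α] (c : ℕ) {B : α → ℕ} (hB : UPoly B) :
    Poly (fun a => FL c (B a)) := by
  have hlev : Poly (fun p : α × ℕ => lev p.2) := by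
    have h1 : Poly (fun p : α × ℕ => (p.2 - 1).bits.length) :=
      Poly.length (Poly.natBits (Poly.sub (Poly.snd Poly.id) (NPC.Poly.const 1)))
    have h2 : Poly (fun p : α × ℕ => p.2.bits.length) :=
      Poly.length (Poly.natBits (Poly.snd Poly.id))
    exact Poly.decide_lt h1 h2
  have hlv : Poly (fun a => levs (B a)) := by
    have hB1 : UPoly (fun a => B a + 1) := hB.add (UPoly.const 1)
    exact Poly.filter (p := fun _ ℓ => lev ℓ) hB1.range hlev
  -- the string of zeros, cut off at the bound
  have hrep : Poly (fun p : α × ℕ => List.replicate (min p.2 (B p.1)) false) := by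
    have hu : UPoly (fun p : α × ℕ => min p.2 (B p.1)) :=
      UPoly.of_le (n := fun p : α × ℕ => B p.1) (Poly.min (Poly.snd Poly.id)
        (hB.toPoly.comp (Poly.fst Poly.id))) (hB.comp (Poly.fst Poly.id))
        (fun p => min_le_right _ _)
    have h := NPC.Poly.map (F := fun (_ : α × ℕ) (_ : Unit) => false) hu (NPC.Poly.const false)
    exact h.congr fun a => by simp
  have hcl : Poly (fun _ : α × ℕ => (List.range c).map (fun r => List.replicate r true)) :=
    NPC.Poly.const _
  have hin : Poly (fun p : α × ℕ => ((List.range c).map (fun r => List.replicate r true)).map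
      (fun z => List.replicate (min p.2 (B p.1)) false ++ z)) :=
    NPC.Poly.map (F := fun (p : α × ℕ) z => List.replicate (min p.2 (B p.1)) false ++ z) hcl
      (Poly.append (hrep.comp (Poly.fst Poly.id)) (Poly.snd Poly.id))
  refine (Poly.flatMap (F := fun a ℓ => ((List.range c).map (fun r => List.replicate r true)).map
      (fun z => List.replicate (min ℓ (B a)) false ++ z)) hlv hin).congr fun a => ?_
  rw [FL]
  apply List.flatMap_congr
  intro ℓ hℓ
  rw [List.map_map]
  apply List.map_congr_left
  intro r _
  have h1 := (mem_levs.1 hℓ).1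
  simp only [Function.comp_apply, fr, min_eq_left h1]

theorem poly_ext {α : Type} [TEnc α] (c : ℕ) (τ : Tab) (K : List (List Bool)) {B : α → ℕ}
    (hB : UPoly B) : Poly (fun a => ext (mis c K (B a)) τ) := by
  have hQ : Poly (fun a => mis c K (B a)) :=
    Poly.filter (p := fun _ y => !decide (y ∈ K)) (poly_FL c hB)
      ((Poly.not (Poly.decide_mem (f := fun p : α × List Bool => p.2) (l := fun _ => K)
        (Poly.snd Poly.id) (NPC.Poly.const _))).congr fun p => by congr)
  have hd : Poly (fun p : α × List Bool × List Tab => dbl p.2.1 p.2.2) := by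
    have g1 : Poly (fun p : α × List Bool × List Tab => p.2.2) := Poly.snd (Poly.snd Poly.id)
    have g2 : ∀ b : Bool, Poly (fun p : (α × List Bool × List Tab) × Tab =>
        (p.1.2.1, b) :: p.2) := fun b =>
      Poly.cons (Poly.pair (Poly.fst (Poly.snd (Poly.fst Poly.id))) (NPC.Poly.const b))
        (Poly.snd Poly.id)
    exact Poly.append (NPC.Poly.map (F := fun (p : α × List Bool × List Tab) (σ : Tab) =>
      (p.2.1, false) :: σ) g1 (g2 false)) (NPC.Poly.map (F := fun (p : α × List Bool × List Tab)
        (σ : Tab) => (p.2.1, true) :: σ) g1 (g2 true))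
  obtain ⟨q, hq⟩ := hB.toPoly.sz_le
  obtain ⟨qb, hqb⟩ := (show Poly (fun a => List.replicate (B a) ()) from hB).sz_le
  set C1 : Polynomial ℕ := (Polynomial.C 2 * qb + 1) ^ c with hC1
  set C2 : Polynomial ℕ := Polynomial.C (sz τ) + Polynomial.C c * (qb + 1) *
    (Polynomial.C 4 * qb + Polynomial.C (4 * c + 1) + Polynomial.C 6) with hC2
  refine Poly.foldr (F := fun _ q T => dbl q T) hQ (NPC.Poly.const [τ]) hd
    (C1 * (C2 + 1) + 1) ?_
  intro a k _
  have e0 : ((mis c K (B a)).drop k).foldr (fun q T => dbl q T) [τ] =
      ext ((mis c K (B a)).drop k) τ := rfl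
  rw [e0]
  set Q' := (mis c K (B a)).drop k with hQ'
  have hBa : B a ≤ qb.eval (sz a) := by
    have h1 := hqb a
    have h2 := length_lt_sz (List.replicate (B a) ())
    rw [List.length_replicate] at h2
    omega
  have hsub : ∀ y ∈ Q', y ∈ FL c (B a) := fun y hy =>
    List.mem_of_mem_filter (List.mem_of_mem_drop hy)
  have hlen : Q'.length ≤ c * (B a).size := by
    rw [hQ', List.length_drop, ← length_FL]
    have := List.length_filter_le (fun y => !decide (y ∈ K)) (FL c (B a))
    have h2 : (mis c K (B a)).length ≤ (FL c (B a)).length := this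
    omega
  have hS : ∀ y ∈ Q', sz y ≤ 4 * qb.eval (sz a) + (4 * c + 1) := by
    intro y hy
    obtain ⟨ℓ, r, h1, _, h3, rfl⟩ := mem_FL.1 (hsub y hy)
    have h4 := sz_listBool_le (fr ℓ r)
    rw [length_fr] at h4
    omega
  have hT := sz_le_length_mul (ext Q' τ) (sz τ + Q'.length *
    ((4 * qb.eval (sz a) + (4 * c + 1)) + 6)) fun σ hσ => sz_mem_ext hS hσ
  rw [length_ext] at hT
  have hpow : 2 ^ Q'.length ≤ (2 * qb.eval (sz a) + 1) ^ c := by
    calc 2 ^ Q'.length ≤ 2 ^ (c * (B a).size) := Nat.pow_le_pow_right (by norm_num) hlen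
      _ = (2 ^ (B a).size) ^ c := by rw [← pow_mul, mul_comm]
      _ ≤ (2 * B a + 1) ^ c := Nat.pow_le_pow_left (two_pow_size_le _) c
      _ ≤ _ := Nat.pow_le_pow_left (by omega) c
  have hlen2 : Q'.length ≤ c * (qb.eval (sz a) + 1) := by
    refine hlen.trans (Nat.mul_le_mul_left _ ?_)
    have := NPC.Poly.size_le_self (B a)
    omega
  refine hT.trans ?_
  have e1 : (C1 * (C2 + 1) + 1).eval (sz a) = (2 * qb.eval (sz a) + 1) ^ c *
      ((sz τ + c * (qb.eval (sz a) + 1) * (4 * qb.eval (sz a) + (4 * c + 1) + 6)) + 1) + 1 := by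
    rw [hC1, hC2]
    simp only [Polynomial.eval_add, Polynomial.eval_mul, Polynomial.eval_pow, Polynomial.eval_C,
      Polynomial.eval_one]
  rw [e1]
  refine Nat.add_le_add_right (Nat.mul_le_mul hpow (Nat.add_le_add_right
    (Nat.add_le_add_left (Nat.mul_le_mul_right _ hlen2) _) _)) _

theorem polyTime_dec (M : Alg) (c : ℕ) (τ : Tab) (s : Polynomial ℕ) :
    PolyTime (fun x => [dec M c τ s x]) := by
  have hE : Poly (fun x : List Bool => ext (mis c (τ.map Prod.fst) (s.eval x.length)) τ) :=
    poly_ext c τ _ (B := fun x : List Bool => s.eval x.length) ((UPoly.length Poly.id).eval s)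
  have hlz : Poly (fun p : List Bool × Tab => lz M p.1 (M.p.eval p.1.length) [] p.2 []) :=
    poly_lz M (x := fun p : List Bool × Tab => p.1) (τ := fun p => p.2) (r := fun _ => [])
      (Poly.fst Poly.id) (Poly.snd Poly.id) (NPC.Poly.const _)
  have hF : Poly (fun x : List Bool => (ext (mis c (τ.map Prod.fst) (s.eval x.length)) τ).filter
      (fun σ => decide (lz M x (M.p.eval x.length) [] σ [] = some [true]))) :=
    Poly.filter (p := fun x σ => decide (lz M x (M.p.eval x.length) [] σ [] = some [true])) hE
      (Poly.decide_eq hlz (NPC.Poly.const _))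
  exact polyTime_of_poly (Poly.decide_lt (Poly.length hE)
    (Poly.mul (NPC.Poly.const 2) (Poly.length hF)))

/-- If for a positive fraction of the contents of the free places the oracle algorithm decides
the language, then the language is in P. -/
theorem inPtime_of_pos {L : Set (List Bool)} (M : Alg) (c : ℕ)
    (h : 0 < ranO.real {B | ∀ x, Right L x (M.out (cut c B) x)}) : InPtime L := by
  classical
  set G : Set Oracle := {B | ∀ x, Right L x (M.out (cut c B) x)} with hG
  obtain ⟨τ, hτF, hτ, hpos, hmax⟩ := exists_max h (fun τ => ∀ e ∈ τ, e.1 ∈ Free c)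
    (fun e he => by simp at he)
  obtain ⟨s, hs⟩ := M.out_local
  refine ⟨_, polyTime_dec M c τ s, fun x => ?_⟩
  set Q := mis c (τ.map Prod.fst) (s.eval x.length) with hQ
  have hQF : ∀ y ∈ Q, y ∈ Free c := fun y hy => free_of_mem_FL (List.mem_of_mem_filter hy)
  have hnd : (Q ++ τ.map Prod.fst).Nodup := by
    rw [List.nodup_append]
    refine ⟨(nodup_FL _ _).filter _, hτ, fun y hy z hz hyz => ?_⟩
    have h1 := (List.mem_filter.1 hy).2
    subst hyz
    simp [hz] at h1
  have hP : ∀ σ ∈ ext Q τ, (∀ e ∈ σ, e.1 ∈ Free c) ∧ Good σ := by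
    intro σ hσ
    have h1 := keys_ext hσ
    refine ⟨fun e he => ?_, by unfold Good; rw [h1]; exact hnd⟩
    have h2 : e.1 ∈ σ.map Prod.fst := List.mem_map_of_mem he
    rw [h1, List.mem_append] at h2
    rcases h2 with h2 | h2
    · exact hQF _ h2
    · obtain ⟨e', he', h3⟩ := List.mem_map.1 h2
      rw [← h3]
      exact hτF e' he'
  -- a wrong simulation shows that the set is empty
  have hkey : ∀ σ ∈ ext Q τ, ¬ Right L x (lz M x (M.p.eval x.length) [] σ []) →
      G ∩ tabSet σ = ∅ := by
    intro σ hσ hwrong
    rw [Set.eq_empty_iff_forall_notMem]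
    rintro B ⟨hB1, hB2⟩
    apply hwrong
    have h0 := hB1 x
    set A' : Oracle := fun q => (look σ q).getD false with hA'
    have hlook : ∀ q b, look σ q = some b → cut c B q = b := by
      intro q b hb
      have h1 := look_some hb
      have h2 : B q = b := hB2 _ h1
      have h3 : q ∈ Free c := (hP σ hσ).1 _ h1
      rw [cut_free h3, h2]
    have h1 : lz M x (M.p.eval x.length) [] σ [] = M.out A' x := by
      rw [Alg.out]
      refine lz_nil M x A' _ [] σ ?_ ?_
      · intro e he
        rw [hA']
        simp only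
        cases hl : look σ e.1 with
        | none => exact absurd (List.mem_map_of_mem he) (look_none hl)
        | some b =>
          have h2 := look_some hl
          have h3 : (e.1, b) = e := List.inj_on_of_nodup_map (hP σ hσ).2 h2 he rfl
          rw [← h3]
          rfl
      · intro q hq
        rw [hA']
        simp only [hq]
        rfl
    have h2 : M.out A' x = M.out (cut c B) x := by
      obtain ⟨Q', _, hQ2, hQ3⟩ := hs (cut c B) x
      apply hQ3
      intro q hq
      rw [hA']
      simp only
      cases hl : look σ q with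
      | some b => exact (hlook q b hl).symm
      | none =>
        have h3 := look_none hl
        rw [keys_ext hσ, List.mem_append, not_or] at h3
        by_cases hF : q ∈ Free c
        · exfalso
          have h4 := mem_FL_of_free hF (hQ2 q hq)
          apply h3.1
          rw [hQ, mis, List.mem_filter]
          exact ⟨h4, by simpa using h3.2⟩
        · rw [cut_not hF]
          rfl
    rw [h1, h2]
    exact h0
  set acc := fun σ : Tab => decide (lz M x (M.p.eval x.length) [] σ [] = some [true]) with hacc
  have hlenpos : 0 < (ext Q τ).length := by rw [length_ext]; positivity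
  have hdec : dec M c τ s x = decide ((ext Q τ).length < 2 * ((ext Q τ).filter acc).length) := rfl
  rw [hdec]
  simp only [List.cons.injEq, and_true, decide_eq_true_iff]
  constructor
  · intro hx
    have h1 := most_right hpos hmax hP acc (fun σ hσ hf => hkey σ hσ (by
      have h2 := of_decide_eq_false hf
      unfold Right
      simp only [hx, true_iff]
      exact h2))
    omega
  · intro hlt
    by_contra hx
    have h1 := most_right hpos hmax hP (fun σ => !acc σ) (fun σ hσ hf => hkey σ hσ (by
      have h2 : acc σ = true := by simpa using hf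
      have h3 := of_decide_eq_true h2
      unfold Right
      simp only [hx, false_iff, not_not]
      exact h3))
    have h2 : ((ext Q τ).filter acc).length + ((ext Q τ).filter (fun σ => !acc σ)).length =
        (ext Q τ).length := by
      have := List.length_eq_length_filter_add (l := ext Q τ) acc
      exact this.symm
    omega

theorem inPtime_of_null {L : Set (List Bool)} {c : ℝ}
    (h : Null (fun N => N - c * Real.logb 2 (Real.logb 2 N)) (helpers L)ᶜ) : InPtime L := by
  obtain ⟨c', hc'⟩ := exists_nat_ge c
  have h1 := cut_null hc' h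
  obtain ⟨M, hM⟩ : ∃ M : Alg, 0 < ranO.real {B | ∀ x, Right L x (M.out (cut c' B) x)} := by
    by_contra hcon
    push Not at hcon
    have h2 : ∀ M : Alg, ranO {B | ∀ x, Right L x (M.out (cut c' B) x)} = 0 := by
      intro M
      have h3 := le_antisymm (hcon M) measureReal_nonneg
      rwa [measureReal_def, ENNReal.toReal_eq_zero_iff, or_iff_left (measure_ne_top _ _)] at h3
    have h4 : ranO (Set.univ : Set Oracle) ≤ 0 := by
      calc ranO (Set.univ : Set Oracle)
          ≤ ranO ({B | cut c' B ∈ (helpers L)ᶜ} ∪
            ⋃ M : Alg, {B | ∀ x, Right L x (M.out (cut c' B) x)}) := by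
            refine measure_mono fun B _ => ?_
            by_cases hB : cut c' B ∈ helpers L
            · right
              obtain ⟨M, hM⟩ := Set.mem_iUnion.1 (helpers_alg L hB)
              exact Set.mem_iUnion.2 ⟨M, hM⟩
            · left
              exact hB
        _ ≤ ranO {B | cut c' B ∈ (helpers L)ᶜ} +
            ranO (⋃ M : Alg, {B | ∀ x, Right L x (M.out (cut c' B) x)}) := measure_union_le _ _
        _ = 0 := by rw [h1, measure_iUnion_null h2, add_zero]
    rw [measure_univ] at h4
    exact absurd h4 (by norm_num)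
  exact inPtime_of_pos M c' hM

end Pool.Agent.Z45.UO
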