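import Pool.Agent.Z45.OG.Defs

/-!
# RP and ZPP without oracle

`PolyTime` is that of `Pool/Agent/NPC/Defs.lean`, `accPr` that of
`Pool/Agent/H620R2/GaugeR/Defs.lean`: the probability that `V` accepts the pair of a random string
of the given length and the input.
-/

namespace Pool.Agent.Z45.UO

open Pool.Agent.NPC Pool.Agent.H620R2.Gauge

/-- The language `L` is in `RP`: for a random string `w` of length `p(|x|)` the polynomial-time
algorithm `V` accepts `⟨w, x⟩` with probability at least `1/2` if `x` is in `L`, and for no `w` if
`x` is not in `L`. -/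
def InRP (L : Set (List Bool)) : Prop :=
  ∃ (V : List Bool → List Bool) (p : Polynomial ℕ), PolyTime V ∧ ∀ x,
    (x ∈ L → 1 / 2 ≤ accPr V (p.eval x.length) x) ∧
    (x ∉ L → accPr V (p.eval x.length) x = 0)

/-- The language `L` is in `ZPP`: both `L` and its complement are in `RP`. -/
def InZPP (L : Set (List Bool)) : Prop := InRP L ∧ InRP Lᶜ

end Pool.Agent.Z45.UO
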