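import Pool.Agent.Z45.OG.Cat

/-!
# Tables with an almost maximal gain, and all their extensions by given places
-/

namespace Pool.Agent.Z45.UO

open Pool.Agent.NPC Pool.Agent.H620R2.Gauge MeasureTheory Pool.Agent.Z45.OG

/-- the relative size of the set `G` among the oracles that agree with a table -/
noncomputable def gain (G : Set Oracle) (τ : Tab) : ℝ := ranO.real (G ∩ tabSet τ) * 2 ^ τ.length

theorem gain_nonneg (G : Set Oracle) (τ : Tab) : 0 ≤ gain G τ :=
  mul_nonneg measureReal_nonneg (by positivity)

theorem gain_le_one (G : Set Oracle) {τ : Tab} (hτ : Good τ) : gain G τ ≤ 1 := by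
  have h2 : ranO.real (G ∩ tabSet τ) ≤ (1 / 2 : ℝ) ^ τ.length := by
    rw [← real_tabSet hτ]
    exact measureReal_mono Set.inter_subset_right
  calc gain G τ ≤ (1 / 2 : ℝ) ^ τ.length * 2 ^ τ.length :=
        mul_le_mul_of_nonneg_right h2 (by positivity)
    _ = 1 := by rw [← mul_pow]; norm_num

theorem gain_split (G : Set Oracle) (q : List Bool) (τ : Tab) :
    gain G ((q, false) :: τ) + gain G ((q, true) :: τ) = 2 * gain G τ := by
  unfold gain
  have h := real_split (G ∩ tabSet τ) q
  rw [tabSet_cons, tabSet_cons, ← Set.inter_assoc, ← Set.inter_assoc, h]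
  simp only [List.length_cons, pow_succ]
  ring

theorem exists_max {G : Set Oracle} (hG : 0 < ranO.real G) (P : Tab → Prop) (hP : P []) :
    ∃ τ, P τ ∧ Good τ ∧ 0 < gain G τ ∧ ∀ τ', P τ' → Good τ' → 3 * gain G τ' ≤ 4 * gain G τ := by
  set S : Set ℝ := {r | ∃ τ, P τ ∧ Good τ ∧ r = gain G τ} with hS
  have hne : S.Nonempty := ⟨_, [], hP, good_nil, rfl⟩
  have hbdd : BddAbove S := ⟨1, by
    rintro r ⟨τ, _, hτ, rfl⟩
    exact gain_le_one G hτ⟩
  have h0 : gain G [] = ranO.real G := by
    unfold gain
    rw [tabSet_nil, Set.inter_univ]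
    simp
  have hpos : 0 < sSup S := lt_of_lt_of_le hG (by
    rw [← h0]
    exact le_csSup hbdd ⟨[], hP, good_nil, rfl⟩)
  obtain ⟨r, ⟨τ, h1, h2, rfl⟩, h3⟩ := exists_lt_of_lt_csSup hne
    (show 3 / 4 * sSup S < sSup S by linarith)
  refine ⟨τ, h1, h2, by linarith, fun τ' h4 h5 => ?_⟩
  have h6 : gain G τ' ≤ sSup S := le_csSup hbdd ⟨τ', h4, h5, rfl⟩
  linarith

/-- both extensions of all tables of the list by a string -/
def dbl (q : List Bool) (T : List Tab) : List Tab :=
  T.map (fun σ => (q, false) :: σ) ++ T.map (fun σ => (q, true) :: σ)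

/-- all extensions of a table by the strings of a list -/
def ext (Q : List (List Bool)) (τ : Tab) : List Tab := Q.foldr dbl [τ]

theorem ext_cons (q : List Bool) (Q : List (List Bool)) (τ : Tab) :
    ext (q :: Q) τ = dbl q (ext Q τ) := rfl

theorem length_ext (Q : List (List Bool)) (τ : Tab) : (ext Q τ).length = 2 ^ Q.length := by
  induction Q with
  | nil => rfl
  | cons q Q ih =>
    rw [ext_cons, dbl, List.length_append, List.length_map, List.length_map, ih, List.length_cons,
      pow_succ]
    ring

theorem keys_ext {Q : List (List Bool)} {τ σ : Tab} (h : σ ∈ ext Q τ) :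
    σ.map Prod.fst = Q ++ τ.map Prod.fst := by
  induction Q generalizing σ with
  | nil =>
    have : σ = τ := by simpa [ext] using h
    rw [this]; rfl
  | cons q Q ih =>
    rw [ext_cons, dbl, List.mem_append, List.mem_map, List.mem_map] at h
    rcases h with ⟨ρ, hρ, rfl⟩ | ⟨ρ, hρ, rfl⟩
    · rw [List.map_cons, ih hρ]; rfl
    · rw [List.map_cons, ih hρ]; rfl

theorem sum_ext (G : Set Oracle) (Q : List (List Bool)) (τ : Tab) :
    ((ext Q τ).map (gain G)).sum = 2 ^ Q.length * gain G τ := by
  induction Q with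
  | nil => simp [ext]
  | cons q Q ih =>
    have h : ∀ T : List Tab, ((dbl q T).map (gain G)).sum = 2 * (T.map (gain G)).sum := by
      intro T
      induction T with
      | nil => simp [dbl]
      | cons σ T ihT =>
        have h1 := gain_split G q σ
        simp only [dbl, List.map_append, List.map_map, List.sum_append, List.map_cons,
          List.sum_cons] at ihT ⊢
        linarith
    rw [ext_cons, h, ih, List.length_cons, pow_succ]
    ring

theorem sum_filter_le {α : Type} (l : List α) (g : α → ℝ) (p : α → Bool) (R : ℝ)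
    (h1 : ∀ a ∈ l, g a ≤ R) (h2 : ∀ a ∈ l, p a = false → g a ≤ 0) :
    (l.map g).sum ≤ (l.filter p).length * R := by
  induction l with
  | nil => simp
  | cons a l ih =>
    have ih := ih (fun b hb => h1 b (List.mem_cons_of_mem _ hb))
      (fun b hb => h2 b (List.mem_cons_of_mem _ hb))
    rw [List.map_cons, List.sum_cons]
    cases hp : p a with
    | true =>
      rw [List.filter_cons_of_pos hp, List.length_cons]
      have := h1 a List.mem_cons_self
      push_cast
      linarith
    | false =>
      rw [List.filter_cons_of_neg (by simp [hp])]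
      have := h2 a List.mem_cons_self hp
      linarith

/-- Most of the extensions give the right answer. -/
theorem most_right {G : Set Oracle} {P : Tab → Prop} {τ : Tab} {Q : List (List Bool)}
    (hpos : 0 < gain G τ)
    (hmax : ∀ τ', P τ' → Good τ' → 3 * gain G τ' ≤ 4 * gain G τ)
    (hP : ∀ σ ∈ ext Q τ, P σ ∧ Good σ) (p : Tab → Bool)
    (hp : ∀ σ ∈ ext Q τ, p σ = false → G ∩ tabSet σ = ∅) :
    3 * (ext Q τ).length ≤ 4 * ((ext Q τ).filter p).length := by
  have h1 := sum_filter_le (ext Q τ) (gain G) p (4 / 3 * gain G τ)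
    (fun σ hσ => by
      have := hmax σ (hP σ hσ).1 (hP σ hσ).2
      linarith)
    (fun σ hσ h => by
      unfold gain
      rw [hp σ hσ h, measureReal_empty, zero_mul])
  rw [sum_ext] at h1
  have h2 : (3 * 2 ^ Q.length : ℝ) * gain G τ ≤
      (4 * (((ext Q τ).filter p).length : ℝ)) * gain G τ := by linarith
  have h3 := le_of_mul_le_mul_right h2 hpos
  rw [length_ext]
  exact_mod_cast h3

end Pool.Agent.Z45.UO
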