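import Pool.Agent.Z45.UO.Defs
import Pool.Agent.Z45.OG.BppA
import Pool.Agent.Z45.OG.BppB

/-!
# Oracle algorithms that are never wrong, with whatever oracle
-/

namespace Pool.Agent.Z45.UO

open Pool.Agent.NPC Pool.Agent.H620R2.Gauge MeasureTheory H568R2
open Pool.Agent.Z45.OG hiding blk
open Pool.Agent.Z45.OG renaming blk → oblk

/-- With no oracle the algorithm `M` gives a wrong answer to the question whether the input is in
`L` (the answers are `[true]` and `[false]`; other outputs are not considered as answers). -/
def NeverWrong (M : Alg) (L : Set (List Bool)) : Prop :=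
  ∀ (A : Oracle) (x : List Bool),
    (M.out A x = some [true] → x ∈ L) ∧ (M.out A x = some [false] → x ∉ L)

/-- The oracles with which the algorithm `M` gives an answer for every input. -/
def GoodFor (M : Alg) : Set Oracle :=
  {A | ∀ x, M.out A x = some [true] ∨ M.out A x = some [false]}

/-! ### blocks -/

open Classical in
theorem card_none (t K : ℕ) (h : List Bool → Bool) :
    Nat.card {f : Fin (K * t) → Bool // ¬ ∃ i < K, h (oblk t (List.ofFn f) i) = true} =
      (Nat.card {r : Fin t → Bool // ¬ h (List.ofFn r) = true}) ^ K := by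
  rw [← card_pi_bad K (fun r : Fin t → Bool => ¬ h (List.ofFn r) = true),
    ← card_blocks (fun v : Fin K → Fin t → Bool => ∀ i, ¬ h (List.ofFn (v i)) = true)]
  refine Nat.card_congr (Equiv.subtypeEquivRight fun f => ?_)
  push Not
  constructor
  · intro hh i
    have h1 := hh i i.isLt
    rwa [blk_ofFn] at h1
  · intro hh i hi
    have h1 := hh ⟨i, hi⟩
    rw [← blk_ofFn] at h1
    exact h1

open Classical in
theorem card_compl (m : ℕ) (P : (Fin m → Bool) → Prop) :
    Nat.card {f : Fin m → Bool // P f} + Nat.card {f : Fin m → Bool // ¬ P f} = 2 ^ m := by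
  rw [Nat.card_eq_fintype_card, Nat.card_eq_fintype_card, Fintype.card_subtype,
    Fintype.card_subtype]
  have e := Finset.card_filter_add_card_filter_not (s := Finset.univ) P
  rw [Finset.card_univ] at e
  simpa using e

theorem any_accPr {t K : ℕ} {x : List Bool} (h : List Bool → Bool) {ε : ℝ} (hε0 : 0 ≤ ε)
    (hcount : (Nat.card {r : Fin t → Bool // h (List.ofFn r) = true} : ℝ) = ε * 2 ^ t)
    (hK : 2 ≤ K * ε) (V : List Bool → List Bool)
    (hV : ∀ f : Fin (K * t) → Bool, V (pairBits (List.ofFn f) x) = [true] ↔
      ∃ i < K, h (oblk t (List.ofFn f) i) = true) : 2 / 3 ≤ accPr V (K * t) x := by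
  have h1 := card_compl t (fun r : Fin t → Bool => h (List.ofFn r) = true)
  have h2 : (Nat.card {r : Fin t → Bool // ¬ h (List.ofFn r) = true} : ℝ) = (1 - ε) * 2 ^ t := by
    have : ((Nat.card {r : Fin t → Bool // h (List.ofFn r) = true} : ℕ) : ℝ) +
        ((Nat.card {r : Fin t → Bool // ¬ h (List.ofFn r) = true} : ℕ) : ℝ) = 2 ^ t := by
      exact_mod_cast h1
    rw [hcount] at this
    linarith
  have hε1 : ε ≤ 1 := by
    have h3 : (0 : ℝ) ≤ (1 - ε) * 2 ^ t := by rw [← h2]; positivity
    by_contra hcon
    have h4 : (1 - ε) * 2 ^ t < 0 := mul_neg_of_neg_of_pos (by linarith) (by positivity)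
    linarith
  have hpow := pow_one_sub_le hε0 hε1 K hK
  have h5 := card_compl (K * t) (fun f : Fin (K * t) → Bool =>
    ∃ i < K, h (oblk t (List.ofFn f) i) = true)
  rw [card_none] at h5
  have h6 : ((Nat.card {f : Fin (K * t) → Bool //
      ∃ i < K, h (oblk t (List.ofFn f) i) = true} : ℕ) : ℝ) +
      (((Nat.card {r : Fin t → Bool // ¬ h (List.ofFn r) = true}) ^ K : ℕ) : ℝ) =
      2 ^ (K * t) := by exact_mod_cast h5
  rw [Nat.cast_pow, h2, mul_pow, ← pow_mul, mul_comm t K] at h6
  have h7 : Nat.card {w : Fin (K * t) → Bool // V (pairBits (List.ofFn w) x) = [true]} =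
      Nat.card {f : Fin (K * t) → Bool // ∃ i < K, h (oblk t (List.ofFn f) i) = true} :=
    Nat.card_congr (Equiv.subtypeEquivRight hV)
  rw [accPr, h7, le_div_iff₀ (by positivity)]
  have h8 : (1 - ε) ^ K * 2 ^ (K * t) ≤ 1 / 3 * 2 ^ (K * t) :=
    mul_le_mul_of_nonneg_right hpow (by positivity)
  linarith

/-! ### from oracles to random strings -/

/-- the randomised algorithm: some simulation gives the answer `b` -/
def simV (M : Alg) (T : Polynomial ℕ) (b : Bool) (y : List Bool) : List Bool :=
  [(List.range (T.eval (unpair y).2.length)).any (fun i =>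
    decide (lz M (unpair y).2 (M.p.eval (unpair y).2.length) [] []
      (oblk (M.p.eval (unpair y).2.length) (unpair y).1 i) = some [b]))]

theorem polyTime_simV (M : Alg) (T : Polynomial ℕ) (b : Bool) : PolyTime (simV M T b) := by
  have h1 : Poly (fun y => (unpair y).1) := Poly.fst poly_unpair
  have h2 : Poly (fun y => (unpair y).2) := Poly.snd poly_unpair
  have h3 : Poly (fun q : List Bool × ℕ => lz M (unpair q.1).2
      (M.p.eval (unpair q.1).2.length) [] []
      (oblk (M.p.eval (unpair q.1).2.length) (unpair q.1).1 q.2)) :=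
    poly_lz M (x := fun q : List Bool × ℕ => (unpair q.1).2) (τ := fun _ => [])
      (r := fun q => oblk (M.p.eval (unpair q.1).2.length) (unpair q.1).1 q.2)
      (h2.comp (Poly.fst Poly.id)) (NPC.Poly.const [])
      (poly_blk (((UPoly.length h2).eval M.p).comp (Poly.fst Poly.id))
        (h1.comp (Poly.fst Poly.id)) (Poly.snd Poly.id))
  exact polyTime_of_poly (Poly.any (p := fun y i => decide (lz M (unpair y).2
      (M.p.eval (unpair y).2.length) [] []
      (oblk (M.p.eval (unpair y).2.length) (unpair y).1 i) = some [b]))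
    ((UPoly.length h2).eval T).range (Poly.decide_eq h3 (NPC.Poly.const _)))

theorem simV_iff (M : Alg) (T : Polynomial ℕ) (b : Bool) (w x : List Bool) :
    simV M T b (pairBits w x) = [true] ↔ ∃ i < T.eval x.length,
      decide (lz M x (M.p.eval x.length) [] [] (oblk (M.p.eval x.length) w i) = some [b]) =
        true := by
  simp only [simV, unpair_pairBits, List.cons.injEq, and_true, List.any_eq_true, List.mem_range]

/-- answers that no oracle gives do not occur in the simulation -/
theorem lz_ne (M : Alg) (x : List Bool) (o : Option (List Bool))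
    (h : ∀ A : Oracle, M.out A x ≠ o) (w : List Bool) (hw : w.length = M.p.eval x.length) :
    lz M x (M.p.eval x.length) [] [] w ≠ o := by
  intro hcon
  set t := M.p.eval x.length with ht
  have h1 := count_lz M (fun z => z = o) x t [] [] t le_rfl
  have h2 := real_run M (fun z => z = o) x t [] [] good_nil
  have h3 : tabSet [] ∩ {A : Oracle | M.run A x t [] = o} = ∅ := by
    rw [Set.eq_empty_iff_forall_notMem]
    rintro A ⟨_, hA⟩
    exact h A hA
  rw [h3, measureReal_empty, List.length_nil, pow_zero, mul_one] at h2
  rw [← h2, zero_mul] at h1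
  have h4 : Nat.card {r : Fin t → Bool // lz M x t [] [] (List.ofFn r) = o} = 0 := by
    exact_mod_cast h1
  have h5 : 0 < Nat.card {r : Fin t → Bool // lz M x t [] [] (List.ofFn r) = o} := by
    rw [Nat.card_pos_iff]
    refine ⟨⟨⟨fun i => w.get (i.cast hw.symm), ?_⟩⟩, inferInstance⟩
    have h6 : List.ofFn (fun i : Fin t => w.get (i.cast hw.symm)) = w := by
      apply List.ext_getElem
      · simp [hw]
      · intro i h1 h2
        simp
    rw [h6]
    exact hcon
  omega

theorem length_blk (t : ℕ) (w : List Bool) (i : ℕ) : (oblk t w i).length = t := by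
  simp [oblk]

/-- the answer is right or missing in every simulation, and it is given often enough -/
theorem inZPP_of_nonnull {L : Set (List Bool)} {M : Alg} (hM : NeverWrong M L) {c : ℝ}
    (h : ¬ Null (fun N => c * Real.logb 2 (Real.logb 2 N)) (GoodFor M)) : InZPP L := by
  classical
  obtain ⟨δ, s, hδ, hlow⟩ := prob_lower M (fun _ o => o = some [true] ∨ o = some [false]) h
  obtain ⟨C, hC⟩ := exists_nat_ge c
  obtain ⟨D, hD⟩ := exists_nat_ge (2 / δ)
  set T : Polynomial ℕ := Polynomial.C D * (s + 1) ^ C with hT
  have hTe : ∀ n, T.eval n = D * (s.eval n + 1) ^ C := by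
    intro n; simp [hT]
  -- the probability of an answer
  have hacc : ∀ x : List Bool, 2 ≤ ((T.eval x.length : ℕ) : ℝ) *
      acc M (fun o => o = some [true] ∨ o = some [false]) x (M.p.eval x.length) [] [] := by
    intro x
    have h1 := hlow x.length
    set m := s.eval x.length + 1 with hm
    have hm1 : (1 : ℝ) ≤ (m : ℝ) := by
      have : 1 ≤ m := by omega
      exact_mod_cast this
    have h2 : (2 : ℝ) ^ (c * Real.logb 2 (Real.logb 2 ((2 ^ m : ℕ) : ℝ))) ≤ ((m ^ C : ℕ) : ℝ) := by
      have e1 : Real.logb 2 ((2 ^ m : ℕ) : ℝ) = (m : ℝ) := by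
        rw [Nat.cast_pow, Nat.cast_ofNat, Real.logb_pow, Real.logb_self_eq_one (by norm_num),
          mul_one]
      rw [e1, mul_comm, Real.rpow_mul (by norm_num), Real.rpow_logb (by norm_num) (by norm_num)
        (by linarith)]
      calc (m : ℝ) ^ c ≤ (m : ℝ) ^ (C : ℝ) := Real.rpow_le_rpow_of_exponent_le hm1 hC
        _ = ((m ^ C : ℕ) : ℝ) := by rw [Real.rpow_natCast]; push_cast; ring
    have h4 : ranO.real {A | ∀ y : List Bool, y.length ≤ x.length →
        (M.out A y = some [true] ∨ M.out A y = some [false])} ≤
        acc M (fun o => o = some [true] ∨ o = some [false]) x (M.p.eval x.length) [] [] := by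
      have h5 := real_run M (fun o => o = some [true] ∨ o = some [false]) x
        (M.p.eval x.length) [] [] good_nil
      rw [List.length_nil, pow_zero, mul_one] at h5
      rw [← h5]
      refine measureReal_mono fun A hA => ⟨?_, hA x le_rfl⟩
      rw [tabSet_nil]
      trivial
    have h6 : δ ≤ acc M (fun o => o = some [true] ∨ o = some [false]) x
        (M.p.eval x.length) [] [] * ((m ^ C : ℕ) : ℝ) := by
      refine (h1.trans (mul_le_mul_of_nonneg_left h2 measureReal_nonneg)).trans ?_
      exact mul_le_mul_of_nonneg_right h4 (by positivity)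
    have h7 : (2 : ℝ) ≤ D * δ := by
      rw [div_le_iff₀ hδ] at hD
      exact hD
    calc (2 : ℝ) ≤ D * δ := h7
      _ ≤ D * (acc M (fun o => o = some [true] ∨ o = some [false]) x (M.p.eval x.length) [] [] *
          ((m ^ C : ℕ) : ℝ)) := mul_le_mul_of_nonneg_left h6 (by positivity)
      _ = _ := by rw [hTe, ← hm]; push_cast; ring
  -- the answer `b` for the inputs where the answer `!b` is impossible
  have hyes : ∀ (b : Bool) (x : List Bool), (∀ A : Oracle, M.out A x ≠ some [!b]) →
      1 / 2 ≤ accPr (simV M T b) ((T * M.p).eval x.length) x := by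
    intro b x hb
    rw [Polynomial.eval_mul]
    refine le_trans (by norm_num) (any_accPr (t := M.p.eval x.length) (K := T.eval x.length)
      (fun r => decide (lz M x (M.p.eval x.length) [] [] r = some [b]))
      (ε := acc M (fun o => o = some [true] ∨ o = some [false]) x (M.p.eval x.length) [] [])
      (acc_nonneg _ _ _ _ _ _) ?_ (hacc x) (simV M T b) ?_)
    · rw [← count_lz M (fun o => o = some [true] ∨ o = some [false]) x (M.p.eval x.length) [] []
        (M.p.eval x.length) le_rfl]
      congr 1
      refine Nat.card_congr (Equiv.subtypeEquivRight fun r => ?_)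
      rw [decide_eq_true_iff]
      have h1 := lz_ne M x (some [!b]) hb (List.ofFn r) (by simp)
      cases b
      · constructor
        · intro h2; exact Or.inr h2
        · rintro (h2 | h2)
          · exact absurd h2 h1
          · exact h2
      · constructor
        · intro h2; exact Or.inl h2
        · rintro (h2 | h2)
          · exact h2
          · exact absurd h2 h1
    · intro f
      exact simV_iff M T b (List.ofFn f) x
  have hno : ∀ (b : Bool) (x : List Bool), (∀ A : Oracle, M.out A x ≠ some [b]) →
      accPr (simV M T b) ((T * M.p).eval x.length) x = 0 := by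
    intro b x hb
    rw [accPr]
    have : IsEmpty {w : Fin ((T * M.p).eval x.length) → Bool //
        simV M T b (pairBits (List.ofFn w) x) = [true]} := by
      constructor
      rintro ⟨w, hw⟩
      obtain ⟨i, _, hi⟩ := (simV_iff M T b _ _).1 hw
      exact lz_ne M x (some [b]) hb _ (length_blk _ _ _) (of_decide_eq_true hi)
    rw [Nat.card_of_isEmpty]
    simp
  refine ⟨⟨simV M T true, T * M.p, polyTime_simV M T true, fun x => ⟨fun hx => ?_, fun hx => ?_⟩⟩,
    ⟨simV M T false, T * M.p, polyTime_simV M T false, fun x => ⟨fun hx => ?_, fun hx => ?_⟩⟩⟩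
  · exact hyes true x fun A hA => (hM A x).2 hA hx
  · exact hno true x fun A hA => hx ((hM A x).1 hA)
  · exact hyes false x fun A hA => hx ((hM A x).1 hA)
  · exact hno false x fun A hA => (hM A x).2 hA (not_not.1 hx)

end Pool.Agent.Z45.UO
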