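import Pool.Agent.Z45.UO.Robust

/-!
# Every language in ZPP has a good oracle algorithm that is never wrong
-/

namespace Pool.Agent.Z45.UO

open Pool.Agent.NPC Pool.Agent.H620R2.Gauge MeasureTheory H568R2
open Pool.Agent.Z45.OG hiding blk
open Pool.Agent.Z45.OG renaming blk → oblk

/-- one nonadaptive algorithm for all oracles -/
theorem exists_tt {Q : List Bool → List (List Bool)} {H : List Bool × List Bool → List Bool}
    (hQ : Poly Q) (hH : Poly H) :
    ∃ M : Alg, ∀ A x, M.out A x = some (H (x, (Q x).map A)) := by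
  obtain ⟨q, hq⟩ := hQ.sz_le
  refine ⟨A2.ttAlg hQ hH (q.comp (Polynomial.C 4 * Polynomial.X + Polynomial.C 1)),
    fun A x => ?_⟩
  have h1 := length_lt_sz (Q x)
  have h2 : (Q x).length + 1 ≤
      (q.comp (Polynomial.C 4 * Polynomial.X + Polynomial.C 1)).eval x.length :=
    A2.sz_eval_le (h1.trans_le (hq x))
  exact A2.tt_run hQ hH (q.comp (Polynomial.C 4 * Polynomial.X + Polynomial.C 1)) A x
    ((q.comp (Polynomial.C 4 * Polynomial.X + Polynomial.C 1)).eval x.length) 0 (Nat.zero_le _)
    (by omega)

/-- some block is accepted -/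
def anyB (V : List Bool → List Bool) (P K : ℕ) (x w : List Bool) : Bool :=
  (List.range K).any (fun i => decide (V (pairBits (oblk P w i) x) = [true]))

theorem anyB_iff (V : List Bool → List Bool) (P K : ℕ) (x w : List Bool) :
    anyB V P K x w = true ↔ ∃ i < K, V (pairBits (oblk P w i) x) = [true] := by
  simp [anyB]

/-- the answer found with the coins `w` -/
def zans (V1 V0 : List Bool → List Bool) (P1 P0 K : ℕ) (x w : List Bool) : List Bool :=
  bif anyB V1 P1 K x w then [true] else bif anyB V0 P0 K x w then [false] else []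

theorem poly_anyB {α : Type} [TEnc α] {V : List Bool → List Bool} (hV : PolyTime V)
    {P K : α → ℕ} {x w : α → List Bool} (hP : UPoly P) (hK : UPoly K) (hx : Poly x)
    (hw : Poly w) : Poly (fun a => anyB V (P a) (K a) (x a) (w a)) := by
  have h0 : Poly (fun q : α × ℕ => q.1) := Poly.fst Poly.id
  refine Poly.any (p := fun a i => decide (V (pairBits (oblk (P a) (w a) i) (x a)) = [true]))
    hK.range (Poly.decide_eq ((H622R2.poly_of_polyTime hV).comp (H622R2.poly_pairBits
      (poly_blk (hP.comp h0) (hw.comp h0) (Poly.snd Poly.id)) (hx.comp h0))) (NPC.Poly.const _))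

/-- blocks depend on the first places only -/
theorem blk_congr {t K : ℕ} {w w' : List Bool}
    (h : ∀ k < K * t, w.getD k false = w'.getD k false) {i : ℕ} (hi : i < K) :
    oblk t w i = oblk t w' i := by
  unfold oblk
  apply List.map_congr_left
  intro j hj
  rw [List.mem_range] at hj
  apply h
  calc j + t * i < t + t * i := by omega
    _ = (i + 1) * t := by ring
    _ ≤ K * t := Nat.mul_le_mul_right _ hi

theorem anyB_congr {V : List Bool → List Bool} {P K : ℕ} {x w w' : List Bool}
    (h : ∀ k < K * P, w.getD k false = w'.getD k false) :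
    anyB V P K x w = anyB V P K x w' := by
  rw [Bool.eq_iff_iff, anyB_iff, anyB_iff]
  constructor
  · rintro ⟨i, hi, h1⟩
    rw [blk_congr h hi] at h1
    exact ⟨i, hi, h1⟩
  · rintro ⟨i, hi, h1⟩
    rw [← blk_congr h hi] at h1
    exact ⟨i, hi, h1⟩

theorem exists_ofFn {t : ℕ} {w : List Bool} (h : w.length = t) :
    ∃ r : Fin t → Bool, List.ofFn r = w := by
  subst h
  exact ⟨w.get, List.ofFn_get w⟩

/-- the probability that no block of random bits is accepted -/
theorem measure_none {V : List Bool → List Bool} {P : ℕ} {x : List Bool}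
    (h : 1 / 2 ≤ accPr V P x) (K N : ℕ) (hN : K * P ≤ N) :
    ranO {A | anyB V P K x (((List.range N).map (fun i => place x i)).map A) = false} ≤
      (2⁻¹) ^ K := by
  classical
  have h3 := ranO_cyl_le (fun i : Fin (K * P) => place x i)
    (fun i j h => Fin.ext (place_inj h)) (fun a => anyB V P K x (List.ofFn a) = false)
  have h4 : {A : Oracle | anyB V P K x
      (((List.range N).map (fun i => place x i)).map A) = false} =
      {B : Oracle | anyB V P K x (List.ofFn (fun i : Fin (K * P) =>
        B (place x i))) = false} := by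
    ext A
    simp only [Set.mem_ofPred_eq]
    rw [anyB_congr (w' := List.ofFn (fun i : Fin (K * P) => A (place x i)))]
    intro k hk
    rw [List.getD_eq_getElem _ _ (by simp; omega), List.getD_eq_getElem _ _ (by simpa using hk)]
    simp
  rw [h4]
  refine h3.trans ?_
  have h8 := card_of_Ex (N := K * P) (fun a : Fin (K * P) → Bool =>
    anyB V P K x (List.ofFn a) = false)
  -- the number of bad strings
  have e1 : (Nat.card {f : Fin (K * P) → Bool // anyB V P K x (List.ofFn f) = false}) =
      (Nat.card {r : Fin P → Bool // ¬ V (pairBits (List.ofFn r) x) = [true]}) ^ K := by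
    have e2 := card_none P K (fun r => decide (V (pairBits r x) = [true]))
    simp only [decide_eq_true_iff] at e2
    rw [← e2]
    refine Nat.card_congr (Equiv.subtypeEquivRight fun f => ?_)
    rw [← anyB_iff]
    simp
  have e2 := card_compl P (fun r : Fin P → Bool => V (pairBits (List.ofFn r) x) = [true])
  have e3 : 2 * Nat.card {r : Fin P → Bool // ¬ V (pairBits (List.ofFn r) x) = [true]} ≤
      2 ^ P := by
    rw [accPr, le_div_iff₀ (by positivity)] at h
    have e4 : ((2 ^ P : ℕ) : ℝ) ≤ ((2 * Nat.card {r : Fin P → Bool //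
        V (pairBits (List.ofFn r) x) = [true]} : ℕ) : ℝ) := by
      push_cast
      linarith
    have e5 : 2 ^ P ≤ 2 * Nat.card {r : Fin P → Bool //
        V (pairBits (List.ofFn r) x) = [true]} := by exact_mod_cast e4
    omega
  have h5 : 2 ^ K * (Nat.card {f : Fin (K * P) → Bool //
      anyB V P K x (List.ofFn f) = false}) ≤ 2 ^ (K * P) := by
    rw [e1, ← mul_pow]
    calc _ ≤ (2 ^ P) ^ K := Nat.pow_le_pow_left e3 K
      _ = 2 ^ (K * P) := by rw [← pow_mul, mul_comm]
  rw [Nat.card_eq_fintype_card, Fintype.card_subtype] at h5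
  have h6 : (2 : ℝ) ^ K * ((Finset.univ.filter (fun f : Fin (K * P) → Bool =>
      anyB V P K x (List.ofFn f) = false)).card : ℕ) ≤ 2 ^ (K * P) := by
    exact_mod_cast h5
  have h7 : (((Finset.univ.filter (fun f : Fin (K * P) → Bool =>
      anyB V P K x (List.ofFn f) = false)).card : ℕ) : ℝ) *
      2 ^ (-((K * P : ℕ) : ℝ)) ≤ (1 / 2) ^ K := by
    rw [Real.rpow_neg (by norm_num), Real.rpow_natCast, ← div_eq_mul_inv,
      div_le_iff₀ (by positivity), one_div, inv_pow, ← div_eq_inv_mul, le_div_iff₀ (by positivity)]
    linarith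
  have h9 : (((Finset.univ.filter (fun f : Fin (K * P) → Bool =>
      anyB V P K x (List.ofFn f) = false)).card : ℕ) : ℝ) *
      2 ^ (-((K * P : ℕ) : ℝ)) = _ := Eq.trans (by
        congr 2
        exact congrArg Finset.card (Finset.ext fun a => by simp only [Finset.mem_filter])) h8
  refine (ENNReal.ofReal_le_ofReal (le_trans (le_of_eq
    ((Ex_inst _ _ _ _).trans h9.symm)) h7)).trans (le_of_eq ?_)
  rw [ENNReal.ofReal_pow (by norm_num), one_div, ENNReal.ofReal_inv_of_pos (by norm_num)]
  simp

theorem exists_robust {L : Set (List Bool)} (hL : InZPP L) :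
    ∃ M : Alg, NeverWrong M L ∧ 0 < ranO (GoodFor M) := by
  classical
  obtain ⟨⟨V1, p1, hV1, h1⟩, ⟨V0, p0, hV0, h0⟩⟩ := hL
  have hlen : UPoly (fun x : List Bool => x.length) := UPoly.length Poly.id
  have hK : UPoly (fun x : List Bool => 2 * x.length + 2) := by
    have := hlen.eval (Polynomial.C 2 * Polynomial.X + Polynomial.C 2)
    simpa using this
  have hP1 : UPoly (fun x : List Bool => p1.eval x.length) := hlen.eval p1
  have hP0 : UPoly (fun x : List Bool => p0.eval x.length) := hlen.eval p0
  have hQ : Poly (fun x : List Bool =>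
      (List.range ((2 * x.length + 2) * (p1.eval x.length + p0.eval x.length))).map
        (fun i => place x i)) :=
    NPC.Poly.map (F := fun x i => place x i) (hK.mul (hP1.add hP0)).range
      (H622R2.poly_pairBits (Poly.fst Poly.id) (Poly.natBits (Poly.snd Poly.id)))
  have hH : Poly (fun q : List Bool × List Bool => zans V1 V0 (p1.eval q.1.length)
      (p0.eval q.1.length) (2 * q.1.length + 2) q.1 q.2) := by
    have g1 : Poly (fun q : List Bool × List Bool => q.1) := Poly.fst Poly.id
    have g2 : Poly (fun q : List Bool × List Bool => q.2) := Poly.snd Poly.id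
    exact Poly.cond (poly_anyB hV1 (hP1.comp g1) (hK.comp g1) g1 g2) (NPC.Poly.const _)
      (Poly.cond (poly_anyB hV0 (hP0.comp g1) (hK.comp g1) g1 g2) (NPC.Poly.const _)
        (NPC.Poly.const _))
  obtain ⟨M, hM⟩ := exists_tt hQ hH
  simp only at hM
  set w : Oracle → List Bool → List Bool := fun A x =>
    ((List.range ((2 * x.length + 2) * (p1.eval x.length + p0.eval x.length))).map
        (fun i => place x i)).map A with hw
  -- the algorithms never accept when they should not
  have hn1 : ∀ x, x ∉ L → ∀ u, anyB V1 (p1.eval x.length) (2 * x.length + 2) x u = false := by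
    intro x hx u
    rw [← Bool.not_eq_true, anyB_iff]
    rintro ⟨i, _, hi⟩
    have h2 := (h1 x).2 hx
    rw [accPr, div_eq_zero_iff, or_iff_left (by positivity), Nat.cast_eq_zero] at h2
    have h3 : 0 < Nat.card {w : Fin (p1.eval x.length) → Bool //
        V1 (pairBits (List.ofFn w) x) = [true]} := by
      rw [Nat.card_pos_iff]
      obtain ⟨r, hr⟩ := exists_ofFn (length_blk (p1.eval x.length) u i)
      exact ⟨⟨⟨r, by rw [hr]; exact hi⟩⟩, inferInstance⟩
    omega
  have hn0 : ∀ x, x ∈ L → ∀ u, anyB V0 (p0.eval x.length) (2 * x.length + 2) x u = false := by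
    intro x hx u
    rw [← Bool.not_eq_true, anyB_iff]
    rintro ⟨i, _, hi⟩
    have h2 := (h0 x).2 (fun hcon => hcon hx)
    rw [accPr, div_eq_zero_iff, or_iff_left (by positivity), Nat.cast_eq_zero] at h2
    have h3 : 0 < Nat.card {w : Fin (p0.eval x.length) → Bool //
        V0 (pairBits (List.ofFn w) x) = [true]} := by
      rw [Nat.card_pos_iff]
      obtain ⟨r, hr⟩ := exists_ofFn (length_blk (p0.eval x.length) u i)
      exact ⟨⟨⟨r, by rw [hr]; exact hi⟩⟩, inferInstance⟩
    omega
  refine ⟨M, ?_, ?_⟩
  · intro A x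
    rw [hM A x, Option.some.injEq, Option.some.injEq]
    unfold zans
    constructor
    · intro h
      by_contra hx
      rw [hn1 x hx, cond_false] at h
      revert h
      cases anyB V0 (p0.eval x.length) (2 * x.length + 2) x _ <;> simp
    · intro h hx
      rw [hn0 x hx, cond_false] at h
      revert h
      cases anyB V1 (p1.eval x.length) (2 * x.length + 2) x _ <;> simp
  · -- the oracles without answer for some input
    set W : List Bool → Set Oracle := fun x => {A | M.out A x ≠ some [true] ∧
      M.out A x ≠ some [false]} with hW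
    have hWx : ∀ x, ranO (W x) ≤ (2⁻¹) ^ (2 * x.length + 2) := by
      intro x
      by_cases hx : x ∈ L
      · refine (measure_mono ?_).trans (measure_none ((h1 x).1 hx) (2 * x.length + 2)
          ((2 * x.length + 2) * (p1.eval x.length + p0.eval x.length))
          (Nat.mul_le_mul_left _ (Nat.le_add_right _ _)))
        rintro A ⟨hA1, _⟩
        rw [Set.mem_ofPred_eq, ← Bool.not_eq_true]
        intro hcon
        apply hA1
        rw [hM A x]
        unfold zans
        rw [hcon, cond_true]
      · refine (measure_mono ?_).trans (measure_none ((h0 x).1 hx) (2 * x.length + 2)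
          ((2 * x.length + 2) * (p1.eval x.length + p0.eval x.length))
          (Nat.mul_le_mul_left _ (Nat.le_add_left _ _)))
        rintro A ⟨_, hA2⟩
        rw [Set.mem_ofPred_eq, ← Bool.not_eq_true]
        intro hcon
        apply hA2
        rw [hM A x]
        unfold zans
        rw [hcon, cond_true, hn1 x hx, cond_false]
    have hsub : (GoodFor M)ᶜ ⊆ ⋃ n : ℕ, ⋃ v : Fin n → Bool, W (List.ofFn v) := by
      intro A hA
      simp only [GoodFor, Set.mem_compl_iff, Set.mem_ofPred_eq, not_forall, not_or] at hA
      obtain ⟨x, hx⟩ := hA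
      refine Set.mem_iUnion.2 ⟨x.length, Set.mem_iUnion.2 ⟨x.get, ?_⟩⟩
      rw [List.ofFn_get]
      exact hx
    have hbad : ranO (GoodFor M)ᶜ ≤ 2⁻¹ := by
      calc ranO (GoodFor M)ᶜ ≤ ranO (⋃ n : ℕ, ⋃ v : Fin n → Bool, W (List.ofFn v)) :=
            measure_mono hsub
        _ ≤ ∑' n : ℕ, ranO (⋃ v : Fin n → Bool, W (List.ofFn v)) := measure_iUnion_le _
        _ ≤ ∑' n : ℕ, (2 : ENNReal) ^ n * (2⁻¹) ^ (2 * n + 2 + 0) := by
            refine ENNReal.tsum_le_tsum fun n => ?_
            refine (measure_iUnion_fintype_le _ _).trans ?_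
            refine (Finset.sum_le_sum (g := fun _ => (2⁻¹ : ENNReal) ^ (2 * n + 2 + 0))
              fun v _ => ?_).trans ?_
            · have h3 := hWx (List.ofFn v)
              rw [List.length_ofFn] at h3
              exact h3
            · rw [Finset.sum_const, Finset.card_univ, nsmul_eq_mul]
              simp
        _ = 2⁻¹ := by rw [tsum_bound]; simp
    by_contra hcon
    have h2 : ranO (GoodFor M) = 0 := le_antisymm (not_lt.1 hcon) (by simp)
    have h3 : ranO (Set.univ : Set Oracle) ≤ ranO (GoodFor M) + ranO (GoodFor M)ᶜ := by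
      rw [← Set.union_compl_self (GoodFor M)]
      exact measure_union_le _ _
    rw [measure_univ, h2, zero_add] at h3
    have h4 := h3.trans hbad
    rw [ENNReal.one_le_inv] at h4
    exact absurd h4 (by norm_num)

theorem exists_robust_nonnull {L : Set (List Bool)} (hL : InZPP L) :
    ∃ M : Alg, NeverWrong M L ∧
      ¬ Null (fun N => (0 : ℝ) * Real.logb 2 (Real.logb 2 N)) (GoodFor M) := by
  obtain ⟨M, h1, h2⟩ := exists_robust hL
  refine ⟨M, h1, not_null_of _ (GoodFor M) h2 (fun B => B) ∅ (fun _ _ _ => rfl) 0 ?_ _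
    fun B hB => hB⟩
  intro N
  simp

end Pool.Agent.Z45.UO
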